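import Pool.Agent.Helper70.Matching.Specs2

/-! MP_fb8750_pr, packet M-B4b: bounds for the matching functional. -/

open Finset
open Pool.Agent.Helper70.Matching

namespace Pool.Agent.Helper89.Matching

theorem bound_up {E : Type} [PseudoMetricSpace E] (P : Multiset E) (z₀ : E) (D : ℝ)
    (h : ∀ x ∈ P, dist x z₀ ≤ D) :
    ∃ c ≤ D * Multiset.card P, PM (P + Multiset.replicate (Multiset.card P) z₀) c := by
  induction P using Multiset.induction_on with
  | empty => exact ⟨0, by simp, by simpa using PM.nil⟩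
  | cons x P ih =>
    obtain ⟨c, hc, hP⟩ := ih (fun y hy => h y (Multiset.mem_cons_of_mem hy))
    refine ⟨dist x z₀ + c, ?_, ?_⟩
    · have := h x (Multiset.mem_cons_self _ _)
      rw [Multiset.card_cons]
      push_cast
      linarith
    · refine (PM.cons x z₀ hP).cast ?_ rfl
      rw [Multiset.card_cons, Multiset.replicate_succ]
      simp only [Multiset.cons_add, Multiset.add_cons]
      exact Multiset.cons_swap _ _ _

theorem lower_aux {E : Type} [PseudoMetricSpace E] (ρ : ℝ) (mk : E → Prop) [DecidablePred mk]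
    {P : Multiset E} {c : ℝ} (hP : PM P c)
    (h1 : ∀ x y, mk x → mk y → x ::ₘ y ::ₘ 0 ≤ P → 2 * ρ ≤ dist x y)
    (h2 : ∀ x ∈ P, ∀ y ∈ P, mk x → ¬ mk y → ρ ≤ dist x y) :
    ρ * Multiset.card (P.filter mk) ≤ c := by
  induction hP with
  | nil => simp
  | cons x y h ih =>
    rename_i P c
    have ih' := ih (fun a b ha hb hab => h1 a b ha hb (hab.trans
      ((Multiset.le_cons_self _ _).trans (Multiset.le_cons_self _ _))))
      (fun a ha b hb => h2 a (by simp [ha]) b (by simp [hb]))
    by_cases hx : mk x <;> by_cases hy : mk y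
    · rw [Multiset.filter_cons_of_pos _ hx, Multiset.filter_cons_of_pos _ hy]
      simp only [Multiset.card_cons]
      push_cast
      have := h1 x y hx hy (Multiset.cons_le_cons _ (Multiset.cons_le_cons _ (Multiset.zero_le _)))
      linarith
    · rw [Multiset.filter_cons_of_pos _ hx, Multiset.filter_cons_of_neg _ hy]
      simp only [Multiset.card_cons]
      push_cast
      have := h2 x (by simp) y (by simp) hx hy
      linarith
    · rw [Multiset.filter_cons_of_neg _ hx, Multiset.filter_cons_of_pos _ hy]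
      simp only [Multiset.card_cons]
      push_cast
      have := h2 y (by simp) x (by simp) hy hx
      rw [dist_comm] at this
      linarith
    · rw [Multiset.filter_cons_of_neg _ hx, Multiset.filter_cons_of_neg _ hy]
      have := dist_nonneg (x := x) (y := y)
      linarith

theorem boundsMF : Spec_boundsMF := by
  refine ⟨?_, ?_⟩
  · intro E _ B P z₀ D hz h
    obtain ⟨c, hc, hP⟩ := bound_up P z₀ D h
    exact (MF_le (fun z hzz => by rw [Multiset.eq_of_mem_replicate hzz]; exact hz) hP).trans hc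
  · intro B s ρ hB hρ hs hsB
    classical
    rcases hρ.eq_or_lt with h0 | hpos
    · rw [← h0, zero_mul]
      exact MF_nonneg _ _
    · have hnot : ∀ z ∈ s, z ∉ B := by
        intro z hz hzB
        have := hsB z hz z hzB
        rw [dist_self] at this
        linarith
      apply le_csInf
      · obtain ⟨Z, c, hZ, hP, _⟩ := MF_approx (P := s.val) (Or.inl hB) one_pos
        exact ⟨c, Z, hZ, hP⟩
      · rintro c ⟨Z, hZ, hP⟩
        have hf : (s.val + Z).filter (· ∈ s) = s.val := by
          rw [Multiset.filter_add]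
          have e1 : s.val.filter (· ∈ s) = s.val := Multiset.filter_eq_self.mpr fun a ha => ha
          have e2 : Z.filter (· ∈ s) = 0 :=
            Multiset.filter_eq_nil.mpr fun a ha has => hnot a has (hZ a ha)
          rw [e1, e2, add_zero]
        have := lower_aux ρ (· ∈ s) hP ?_ ?_
        · rw [hf] at this
          exact this
        · intro x y hx hy hxy
          have h3 := Multiset.filter_le_filter (· ∈ s) hxy
          rw [hf, Multiset.filter_cons_of_pos _ hx, Multiset.filter_cons_of_pos _ hy,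
            Multiset.filter_zero] at h3
          have h4 : (x ::ₘ y ::ₘ (0 : Multiset ℂ)).Nodup := Multiset.nodup_of_le h3 s.nodup
          refine hs x hx y hy ?_
          intro hxy'
          rw [hxy'] at h4
          simp at h4
        · intro x _ y hy hx hy'
          rcases Multiset.mem_add.mp hy with h5 | h5
          · exact absurd h5 hy'
          · exact hsB x hx y (hZ y h5)

theorem zero_of_empty {Z : Multiset ℂ} (hZ : ∀ z ∈ Z, z ∈ (∅ : Set ℂ)) : Z = 0 :=
  Multiset.eq_zero_of_forall_notMem fun z hz => hZ z hz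

theorem MF_empty_le {P : Multiset ℂ} {c : ℝ} (h : PM P c) : MF ∅ P ≤ c :=
  MF_le (Z := 0) (by simp) (by simpa using h)

theorem MF_empty_approx {P : Multiset ℂ} (h : Even (Multiset.card P)) {ε : ℝ} (hε : 0 < ε) :
    ∃ c, PM P c ∧ c < MF ∅ P + ε := by
  obtain ⟨Z, c, hZ, hP, hc⟩ := MF_approx (B := (∅ : Set ℂ)) (Or.inr h) hε
  rw [zero_of_empty hZ, add_zero] at hP
  exact ⟨c, hP, hc⟩

theorem lip_one {ι : Type} [Fintype ι] (f g : ι → ℂ) (hι : Even (Fintype.card ι)) :
    MF ∅ ((univ : Finset ι).val.map g) ≤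
      MF ∅ ((univ : Finset ι).val.map f) + ∑ i, dist (f i) (g i) := by
  apply le_of_forall_pos_le_add
  intro ε hε
  obtain ⟨c, hc, hlt⟩ := MF_empty_approx (P := (univ : Finset ι).val.map f)
    (by rw [Multiset.card_map]; exact hι) hε
  obtain ⟨c', hc', hP⟩ := PM.move (univ : Finset ι).val f g 0 (by simpa using hc)
  have h1 := MF_empty_le (by simpa using hP : PM ((univ : Finset ι).val.map g) c')
  have h2 : ((univ : Finset ι).val.map fun i => dist (f i) (g i)).sum = ∑ i, dist (f i) (g i) := rfl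
  rw [h2] at hc'
  linarith

theorem lipMF : Spec_lipMF := by
  refine ⟨?_, ?_⟩
  · intro ι _ f g hι
    have h1 := lip_one f g hι
    have h2 := lip_one g f hι
    have h3 : ∑ i, dist (g i) (f i) = ∑ i, dist (f i) (g i) :=
      Finset.sum_congr rfl fun i _ => dist_comm _ _
    rw [h3] at h2
    rw [abs_le]
    constructor <;> linarith
  · intro P x y hP
    have h1 : MF ∅ (x ::ₘ y ::ₘ P) ≤ MF ∅ P + dist x y := by
      apply le_of_forall_pos_le_add
      intro ε hε
      obtain ⟨c, hc, hlt⟩ := MF_empty_approx hP hε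
      have := MF_empty_le (PM.cons x y hc)
      linarith
    have h2 : MF ∅ P ≤ MF ∅ (x ::ₘ y ::ₘ P) + dist x y := by
      apply le_of_forall_pos_le_add
      intro ε hε
      obtain ⟨c, hc, hlt⟩ := MF_empty_approx (P := x ::ₘ y ::ₘ P)
        (by
          simp only [Multiset.card_cons]
          rw [show ∀ n : ℕ, n + 1 + 1 = n + 2 from fun n => rfl]
          exact hP.add (by decide)) hε
      obtain ⟨c', hc', h'⟩ := hc.remove
      have := MF_empty_le h'
      linarith
    rw [abs_le]
    constructor <;> linarith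

theorem bd_nonempty {D : Rect} (h : D.ok) : (⟨D.a, D.c⟩ : ℂ) ∈ D.bd := by
  refine ⟨le_rfl, h.1, le_rfl, h.2, Or.inl rfl⟩

theorem size_nonneg {D : Rect} (h : D.ok) : 0 ≤ D.size := by
  have h1 := h.1
  have h2 := h.2
  unfold Rect.size
  linarith

theorem goodMF (h1 : Spec_pairRect) (_h2 : Spec_cutPM) (h3 : Spec_cutRect) (h4 : Spec_locMF) :
    Spec_goodMF := by
  refine ⟨5, ?_⟩
  refine ⟨by norm_num, fun B P => MF_nonneg B P, ?_, ?_, ?_⟩
  · intro B P z₀ D hz h
    have h5 := boundsMF.1 ℂ B P z₀ D hz h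
    rcases Multiset.empty_or_exists_mem P with rfl | ⟨x, hx⟩
    · simpa using h5
    · have hD : 0 ≤ D := dist_nonneg.trans (h x hx)
      refine h5.trans ?_
      have : (0 : ℝ) ≤ D * Multiset.card P := by positivity
      linarith
  · intro B s ρ hB hρ hs hsB
    exact boundsMF.2 B s ρ hB hρ hs hsB
  · intro D₁ D₂ W Δ O A₁ A₂ A₁' A₂' ok1 ok2 hI hb hW1 hW2 hΔ hO ha1 ha2 ha1' ha2' hpar1 hpar2
    have hΔ0 : 0 ≤ Δ :=
      dist_nonneg.trans (hΔ _ (Or.inl (bd_nonempty ok1)) _ (Or.inl (bd_nonempty ok1)))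
    have hpc : PairCost (D₁.bd ∪ D₂.bd) (5 * D₁.size + 5 * D₂.size + Δ) :=
      h1.2 _ _ _ _ _ (h1.1 D₁ ok1) (h1.1 D₂ ok2) hΔ0 hΔ
    have h5 := h4 ℂ D₁.I D₁.bd D₂.I D₂.bd W _ (h3 D₁ ok1) (h3 D₂ ok2) hI hb hW1 hW2
      ⟨_, bd_nonempty ok1⟩ ⟨_, bd_nonempty ok2⟩ hpc O A₁ A₂ A₁' A₂' hO ha1 ha2 ha1' ha2' hpar1 hpar2
    linarith

/-- everything of the packet in one conjunction -/
theorem packB4b : Spec_boundsMF ∧ Spec_lipMF ∧
    (Spec_pairRect → Spec_cutPM → Spec_cutRect → Spec_locMF → Spec_goodMF) :=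
  ⟨boundsMF, lipMF, goodMF⟩

end Pool.Agent.Helper89.Matching
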