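import Pool.Agent.Helper70.Matching.Specs3

/-! MP_fb8750_pr, packet M-C1: two-box oscillation of `G`. -/

open Finset
open Pool.Agent.Helper70.Matching

namespace Pool.Agent.Helper89.Matching

theorem half_lt {h : ℝ} (hh : 0 < h) (a b : ℕ) :
    (a : ℝ) * h < ((b : ℝ) + 1 / 2) * h ↔ a ≤ b := by
  constructor
  · intro H
    by_contra hc
    push Not at hc
    have h1 : (b : ℝ) + 1 ≤ a := by exact_mod_cast hc
    have h2 : ((b : ℝ) + 1 / 2) * h ≤ (a : ℝ) * h :=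
      mul_le_mul_of_nonneg_right (by linarith) hh.le
    linarith
  · intro H
    have h1 : (a : ℝ) ≤ b := by exact_mod_cast H
    exact mul_lt_mul_of_pos_right (by linarith) hh

theorem lt_half {h : ℝ} (hh : 0 < h) (a b : ℕ) :
    ((b : ℝ) + 1 / 2) * h < (a : ℝ) * h ↔ b < a := by
  constructor
  · intro H
    by_contra hc
    push Not at hc
    have h1 : (a : ℝ) ≤ b := by exact_mod_cast hc
    have h2 : (a : ℝ) * h ≤ ((b : ℝ) + 1 / 2) * h :=
      mul_le_mul_of_nonneg_right (by linarith) hh.le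
    linarith
  · intro H
    have h1 : (b : ℝ) + 1 ≤ a := by exact_mod_cast H
    exact mul_lt_mul_of_pos_right (by linarith) hh

theorem pos_mem_I {h : ℝ} (hh : 0 < h) {N : ℕ} (D : NBox) (v : Site N) :
    pos h v ∈ (D.rect h).I ↔ v ∈ D.sites N := by
  unfold NBox.sites Rect.I NBox.rect pos
  simp only [Set.mem_setOf_eq, mem_filter, mem_univ, true_and]
  rw [half_lt hh, lt_half hh, half_lt hh, lt_half hh]

theorem pts_union {h : ℝ} {N : ℕ} {A B : Finset (Site N)} (hAB : Disjoint A B)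
    (ω : Site N → Bool) : pts h (A ∪ B) ω = pts h A ω + pts h B ω := by
  unfold pts
  rw [Finset.filter_union, ← Finset.disjUnion_eq_union _ _ (Finset.disjoint_filter_filter hAB),
    ← Multiset.map_add]
  rfl

theorem pts_congr {h : ℝ} {N : ℕ} {A : Finset (Site N)} {ω ω' : Site N → Bool}
    (hA : ∀ v ∈ A, ω v = ω' v) : pts h A ω = pts h A ω' := by
  unfold pts
  rw [Finset.filter_congr fun v hv => by rw [hA v hv]]

theorem card_pts {h : ℝ} {N : ℕ} {A : Finset (Site N)} {ω : Site N → Bool} :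
    Multiset.card (pts h A ω) = cnt A ω := by
  unfold pts cnt
  rw [Multiset.card_map]
  rfl

theorem mem_pts {h : ℝ} {N : ℕ} {A : Finset (Site N)} {ω : Site N → Bool} {x : ℂ}
    (hx : x ∈ pts h A ω) : ∃ v ∈ A, pos h v = x := by
  unfold pts at hx
  obtain ⟨v, hv, rfl⟩ := Multiset.mem_map.mp hx
  exact ⟨v, (Finset.mem_filter.mp hv).1, rfl⟩

theorem split2 {h : ℝ} {N : ℕ} {A S₁ S₂ : Finset (Site N)} (h1 : S₁ ⊆ A) (h2 : S₂ ⊆ A)
    (h12 : Disjoint S₁ S₂) (ω : Site N → Bool) :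
    pts h A ω = pts h (A \ (S₁ ∪ S₂)) ω + pts h S₁ ω + pts h S₂ ω := by
  rw [add_assoc, ← pts_union h12, ← pts_union Finset.sdiff_disjoint,
    Finset.sdiff_union_of_subset (Finset.union_subset h1 h2)]

theorem split1 {h : ℝ} {N : ℕ} {A S₁ : Finset (Site N)} (h1 : S₁ ⊆ A) (ω : Site N → Bool) :
    pts h A ω = pts h (A \ S₁) ω + pts h S₁ ω := by
  rw [← pts_union Finset.sdiff_disjoint, Finset.sdiff_union_of_subset h1]

/-- the four-fold alternative -/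
def Alt (D₁ D₂ : NBox) : Prop :=
  D₁.x1 ≤ D₂.x0 ∨ D₂.x1 ≤ D₁.x0 ∨ D₁.y1 ≤ D₂.y0 ∨ D₂.y1 ≤ D₁.y0

theorem rect_ok {h : ℝ} (hh : 0 < h) {D : NBox} (hD : D.ok) : (D.rect h).ok := by
  have h1 : (D.x0 : ℝ) ≤ D.x1 := by exact_mod_cast hD.1
  have h2 : (D.y0 : ℝ) ≤ D.y1 := by exact_mod_cast hD.2
  exact ⟨mul_le_mul_of_nonneg_right h1 hh.le, mul_le_mul_of_nonneg_right h2 hh.le⟩

theorem alt_mul {h : ℝ} (hh : 0 < h) {D₁ D₂ : NBox} (ha : Alt D₁ D₂) :
    (D₁.x1 : ℝ) * h ≤ D₂.x0 * h ∨ (D₂.x1 : ℝ) * h ≤ D₁.x0 * h ∨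
      (D₁.y1 : ℝ) * h ≤ D₂.y0 * h ∨ (D₂.y1 : ℝ) * h ≤ D₁.y0 * h := by
  rcases ha with h1 | h1 | h1 | h1
  · left
    exact mul_le_mul_of_nonneg_right (by exact_mod_cast h1) hh.le
  · right; left
    exact mul_le_mul_of_nonneg_right (by exact_mod_cast h1) hh.le
  · right; right; left
    exact mul_le_mul_of_nonneg_right (by exact_mod_cast h1) hh.le
  · right; right; right
    exact mul_le_mul_of_nonneg_right (by exact_mod_cast h1) hh.le

theorem alt_II {h : ℝ} (hh : 0 < h) {D₁ D₂ : NBox} (ha : Alt D₁ D₂) :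
    Disjoint (D₁.rect h).I (D₂.rect h).I := by
  rw [Set.disjoint_left]
  rintro z ⟨h1, h2, h3, h4⟩ ⟨h5, h6, h7, h8⟩
  simp only [NBox.rect] at h1 h2 h3 h4 h5 h6 h7 h8
  rcases alt_mul hh ha with h9 | h9 | h9 | h9 <;> linarith

theorem alt_bI {h : ℝ} (hh : 0 < h) {D₁ D₂ : NBox} (ha : Alt D₁ D₂) :
    Disjoint (D₁.rect h).bd (D₂.rect h).I := by
  rw [Set.disjoint_left]
  rintro z ⟨h1, h2, h3, h4, _⟩ ⟨h5, h6, h7, h8⟩
  simp only [NBox.rect] at h1 h2 h3 h4 h5 h6 h7 h8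
  rcases alt_mul hh ha with h9 | h9 | h9 | h9 <;> linarith

theorem alt_sites {N : ℕ} {D₁ D₂ : NBox} (ha : Alt D₁ D₂) :
    Disjoint (D₁.sites N) (D₂.sites N) := by
  rw [Finset.disjoint_left]
  intro v hv hv'
  unfold NBox.sites at hv hv'
  simp only [mem_filter, mem_univ, true_and] at hv hv'
  obtain ⟨h1, h2, h3, h4⟩ := hv
  obtain ⟨h5, h6, h7, h8⟩ := hv'
  rcases ha with h9 | h9 | h9 | h9 <;> omega

theorem sub_sites {N : ℕ} {D E : NBox} (hs : D.sub E) : D.sites N ⊆ E.sites N := by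
  intro v hv
  unfold NBox.sites at hv ⊢
  simp only [mem_filter, mem_univ, true_and] at hv ⊢
  obtain ⟨h1, h2, h3, h4⟩ := hv
  obtain ⟨h5, h6, h7, h8⟩ := hs
  exact ⟨h5.trans h1, h2.trans_le h6, h7.trans h3, h4.trans_le h8⟩

theorem sub_bd {h : ℝ} (hh : 0 < h) {D E : NBox} (hs : D.sub E) :
    Disjoint (E.rect h).bd (D.rect h).I := by
  rw [Set.disjoint_left]
  rintro z ⟨_, _, _, _, h0⟩ ⟨h5, h6, h7, h8⟩
  obtain ⟨a1, a2, a3, a4⟩ := hs
  have b1 : (E.x0 : ℝ) * h ≤ D.x0 * h := mul_le_mul_of_nonneg_right (by exact_mod_cast a1) hh.le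
  have b2 : (D.x1 : ℝ) * h ≤ E.x1 * h := mul_le_mul_of_nonneg_right (by exact_mod_cast a2) hh.le
  have b3 : (E.y0 : ℝ) * h ≤ D.y0 * h := mul_le_mul_of_nonneg_right (by exact_mod_cast a3) hh.le
  have b4 : (D.y1 : ℝ) * h ≤ E.y1 * h := mul_le_mul_of_nonneg_right (by exact_mod_cast a4) hh.le
  simp only [NBox.rect] at h0 h5 h6 h7 h8
  rcases h0 with h0 | h0 | h0 | h0 <;> linarith

theorem corner_mem {D : Rect} (h : D.ok) : (⟨D.a, D.c⟩ : ℂ) ∈ D.bd :=
  ⟨le_rfl, h.1, le_rfl, h.2, Or.inl rfl⟩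

theorem loc_sites {Fn : Set ℂ → Multiset ℂ → ℝ} {C : ℝ} (hG : Good Fn C) {N : ℕ} {h Λ : ℝ}
    (hh : 0 < h) {D₁ D₂ : NBox} (ok1 : D₁.ok) (ok2 : D₂.ok) (ha : Alt D₁ D₂)
    (s1 : (D₁.rect h).size ≤ Λ) (s2 : (D₂.rect h).size ≤ Λ)
    (hd : ∀ x ∈ (D₁.rect h).bd ∪ (D₂.rect h).bd, ∀ y ∈ (D₁.rect h).bd ∪ (D₂.rect h).bd,
      dist x y ≤ Λ)
    {A : Finset (Site N)} (hA1 : D₁.sites N ⊆ A) (hA2 : D₂.sites N ⊆ A) {W : Set ℂ}
    (hW1 : Disjoint W (D₁.rect h).I) (hW2 : Disjoint W (D₂.rect h).I) {ω ω' : Site N → Bool}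
    (hag : ∀ v, v ∉ D₁.sites N → v ∉ D₂.sites N → ω v = ω' v)
    (hpar1 : W.Nonempty ∨ Even (cnt A ω'))
    (hpar2 : Even (cnt (D₁.sites N) ω + cnt (D₂.sites N) ω + cnt (D₁.sites N) ω' +
      cnt (D₂.sites N) ω')) :
    Fn W (pts h A ω) - Fn (D₁.rect h).bd (pts h (D₁.sites N) ω) -
        Fn (D₂.rect h).bd (pts h (D₂.sites N) ω) ≤
      Fn W (pts h A ω') - Fn (D₁.rect h).bd (pts h (D₁.sites N) ω') -
        Fn (D₂.rect h).bd (pts h (D₂.sites N) ω') + 3 * C * Λ := by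
  have hC : 0 ≤ C := by linarith [hG.one_le]
  have hO : pts h (A \ (D₁.sites N ∪ D₂.sites N)) ω' = pts h (A \ (D₁.sites N ∪ D₂.sites N)) ω := by
    apply pts_congr
    intro v hv
    rw [Finset.mem_sdiff, Finset.mem_union, not_or] at hv
    exact (hag v hv.2.1 hv.2.2).symm
  have e1 := split2 (h := h) hA1 hA2 (alt_sites ha) ω
  have e2 := split2 (h := h) hA1 hA2 (alt_sites ha) ω'
  rw [hO] at e2
  have key := hG.loc (D₁.rect h) (D₂.rect h) W Λ (pts h (A \ (D₁.sites N ∪ D₂.sites N)) ω)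
    (pts h (D₁.sites N) ω) (pts h (D₂.sites N) ω) (pts h (D₁.sites N) ω') (pts h (D₂.sites N) ω')
    (rect_ok hh ok1) (rect_ok hh ok2) (alt_II hh ha) (alt_bI hh ha) hW1 hW2 hd ?_ ?_ ?_ ?_ ?_ ?_ ?_
  · rw [← e1, ← e2] at key
    refine key.trans ?_
    have h3 : C * ((D₁.rect h).size + (D₂.rect h).size + Λ) ≤ C * (3 * Λ) :=
      mul_le_mul_of_nonneg_left (by linarith) hC
    linarith
  · intro x hx
    obtain ⟨v, hv, rfl⟩ := mem_pts hx
    rw [Finset.mem_sdiff, Finset.mem_union, not_or] at hv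
    exact ⟨fun h0 => hv.2.1 ((pos_mem_I hh _ _).mp h0), fun h0 => hv.2.2 ((pos_mem_I hh _ _).mp h0)⟩
  · intro x hx
    obtain ⟨v, hv, rfl⟩ := mem_pts hx
    exact (pos_mem_I hh _ _).mpr hv
  · intro x hx
    obtain ⟨v, hv, rfl⟩ := mem_pts hx
    exact (pos_mem_I hh _ _).mpr hv
  · intro x hx
    obtain ⟨v, hv, rfl⟩ := mem_pts hx
    exact (pos_mem_I hh _ _).mpr hv
  · intro x hx
    obtain ⟨v, hv, rfl⟩ := mem_pts hx
    exact (pos_mem_I hh _ _).mpr hv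
  · rw [← e2, card_pts]
    exact hpar1
  · left
    simp only [Multiset.card_add, card_pts]
    exact hpar2

theorem loc_one {Fn : Set ℂ → Multiset ℂ → ℝ} {C : ℝ} (hG : Good Fn C) {N : ℕ} {h Λ : ℝ}
    (hh : 0 < h) {D₁ : NBox} (ok1 : D₁.ok) {z : ℂ} (hz : z ∈ (D₁.rect h).bd)
    (s1 : (D₁.rect h).size ≤ Λ)
    (hd : ∀ x ∈ (D₁.rect h).bd, ∀ y ∈ (D₁.rect h).bd, dist x y ≤ Λ)
    {A : Finset (Site N)} (hA1 : D₁.sites N ⊆ A) {W : Set ℂ}
    (hW1 : Disjoint W (D₁.rect h).I) (hzW : z ∈ W) {ω ω' : Site N → Bool}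
    (hag : ∀ v ∈ A, v ∉ D₁.sites N → ω v = ω' v) :
    Fn W (pts h A ω) - Fn (D₁.rect h).bd (pts h (D₁.sites N) ω) ≤
      Fn W (pts h A ω') - Fn (D₁.rect h).bd (pts h (D₁.sites N) ω') + 2 * C * Λ := by
  have hC : 0 ≤ C := by linarith [hG.one_le]
  set P : Rect := ⟨z.re, z.re, z.im, z.im⟩ with hP
  have hPI : P.I = ∅ := by
    ext x
    simp only [Set.mem_empty_iff_false, iff_false]
    rintro ⟨h1, h2, _, _⟩
    simp only [hP] at h1 h2
    linarith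
  have hPb : ∀ x ∈ P.bd, x = z := by
    rintro x ⟨h1, h2, h3, h4, _⟩
    simp only [hP] at h1 h2 h3 h4
    exact Complex.ext (le_antisymm h2 h1) (le_antisymm h4 h3)
  have hPs : P.size = 0 := by
    simp only [hP, Rect.size]
    ring
  have hO : pts h (A \ D₁.sites N) ω' = pts h (A \ D₁.sites N) ω := by
    apply pts_congr
    intro v hv
    rw [Finset.mem_sdiff] at hv
    exact (hag v hv.1 hv.2).symm
  have e1 := split1 (h := h) hA1 ω
  have e2 := split1 (h := h) hA1 ω'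
  rw [hO] at e2
  have hsub : ∀ x ∈ (D₁.rect h).bd ∪ P.bd, x ∈ (D₁.rect h).bd := by
    rintro x (hx | hx)
    · exact hx
    · rw [hPb x hx]
      exact hz
  have key := hG.loc (D₁.rect h) P W Λ (pts h (A \ D₁.sites N) ω)
    (pts h (D₁.sites N) ω) 0 (pts h (D₁.sites N) ω') 0
    (rect_ok hh ok1) ⟨le_rfl, le_rfl⟩ (by rw [hPI]; exact Set.disjoint_empty _)
    (by rw [hPI]; exact Set.disjoint_empty _) hW1 (by rw [hPI]; exact Set.disjoint_empty _)
    (fun x hx y hy => hd x (hsub x hx) y (hsub y hy)) ?_ ?_ (by simp) ?_ (by simp)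
    (Or.inl ⟨z, hzW⟩) (Or.inr ⟨z, hzW, Or.inl hz⟩)
  · rw [add_zero, add_zero, ← e1, ← e2, hPs] at key
    have h3 : C * ((D₁.rect h).size + 0 + Λ) ≤ C * (2 * Λ) :=
      mul_le_mul_of_nonneg_left (by linarith) hC
    linarith
  · intro x hx
    obtain ⟨v, hv, rfl⟩ := mem_pts hx
    rw [Finset.mem_sdiff] at hv
    refine ⟨fun h0 => hv.2 ((pos_mem_I hh _ _).mp h0), ?_⟩
    rw [hPI]
    exact Set.notMem_empty _
  · intro x hx
    obtain ⟨v, hv, rfl⟩ := mem_pts hx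
    exact (pos_mem_I hh _ _).mpr hv
  · intro x hx
    obtain ⟨v, hv, rfl⟩ := mem_pts hx
    exact (pos_mem_I hh _ _).mpr hv

theorem blk_inj {N B rs : ℕ} {j j' : Fin B × Fin B} {v : Site N} (h1 : v ∈ (blk rs j).sites N)
    (h2 : v ∈ (blk rs j').sites N) : j = j' := by
  unfold NBox.sites blk at h1 h2
  simp only [mem_filter, mem_univ, true_and] at h1 h2
  obtain ⟨a1, a2, a3, a4⟩ := h1
  obtain ⟨b1, b2, b3, b4⟩ := h2
  have c1 := Nat.lt_of_mul_lt_mul_right (a1.trans_lt b2)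
  have c2 := Nat.lt_of_mul_lt_mul_right (b1.trans_lt a2)
  have c3 := Nat.lt_of_mul_lt_mul_right (a3.trans_lt b4)
  have c4 := Nat.lt_of_mul_lt_mul_right (b3.trans_lt a4)
  exact Prod.ext (Fin.ext (by omega)) (Fin.ext (by omega))

theorem blk_ok {B rs : ℕ} (j : Fin B × Fin B) : (blk rs j).ok :=
  ⟨Nat.mul_le_mul_right _ (Nat.le_succ _), Nat.mul_le_mul_right _ (Nat.le_succ _)⟩

theorem Alt.symm {D₁ D₂ : NBox} (h : Alt D₁ D₂) : Alt D₂ D₁ := by
  rcases h with h | h | h | h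
  · exact Or.inr (Or.inl h)
  · exact Or.inl h
  · exact Or.inr (Or.inr (Or.inr h))
  · exact Or.inr (Or.inr (Or.inl h))

theorem cnt_split {N : ℕ} {A S₁ S₂ : Finset (Site N)} (h1 : S₁ ⊆ A) (h2 : S₂ ⊆ A)
    (h12 : Disjoint S₁ S₂) (ω : Site N → Bool) :
    cnt A ω = cnt (A \ (S₁ ∪ S₂)) ω + cnt S₁ ω + cnt S₂ ω := by
  have := congrArg Multiset.card (split2 (h := 1) h1 h2 h12 ω)
  simpa only [Multiset.card_add, card_pts] using this

theorem osc : Spec_osc := by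
  intro Fn C hG N B rs h Λ _hN hh D₁ D₂ j₁ j₂ ok1 ok2 sub1 sub2 ha hj s1 s2 hd ω ω' hag ev ev'
  have ha' : Alt D₁ D₂ := ha
  have hC : 0 ≤ C := by linarith [hG.one_le]
  have hΛ : 0 ≤ Λ := dist_nonneg.trans
    (hd _ (Or.inl (corner_mem (rect_ok hh ok1))) _ (Or.inl (corner_mem (rect_ok hh ok1))))
  have hCΛ : 0 ≤ C * Λ := mul_nonneg hC hΛ
  -- parity
  have hpar : Even (cnt (D₁.sites N) ω + cnt (D₂.sites N) ω + cnt (D₁.sites N) ω' +
      cnt (D₂.sites N) ω') := by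
    have e1 := cnt_split (subset_univ _) (subset_univ _) (alt_sites (N := N) ha') ω
    have e2 := cnt_split (subset_univ _) (subset_univ _) (alt_sites (N := N) ha') ω'
    have e3 : cnt (univ \ (D₁.sites N ∪ D₂.sites N)) ω' =
        cnt (univ \ (D₁.sites N ∪ D₂.sites N)) ω := by
      rw [← card_pts (h := 1), ← card_pts (h := 1)]
      congr 1
      apply pts_congr
      intro v hv
      rw [Finset.mem_sdiff, Finset.mem_union, not_or] at hv
      exact (hag v hv.2.1 hv.2.2).symm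
    unfold Nw at ev ev'
    rw [Nat.even_iff] at ev ev' ⊢
    omega
  -- the global functional
  have hM : Mw Fn h ω - Fn (D₁.rect h).bd (pts h (D₁.sites N) ω) -
        Fn (D₂.rect h).bd (pts h (D₂.sites N) ω) ≤
      Mw Fn h ω' - Fn (D₁.rect h).bd (pts h (D₁.sites N) ω') -
        Fn (D₂.rect h).bd (pts h (D₂.sites N) ω') + 3 * C * Λ :=
    loc_sites hG hh ok1 ok2 ha' s1 s2 hd (subset_univ _) (subset_univ _)
      (Set.empty_disjoint _) (Set.empty_disjoint _) hag (Or.inr ev') hpar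
  -- blocks
  have hother : ∀ j : Fin B × Fin B, j ≠ j₁ → j ≠ j₂ → Fj Fn h rs j ω = Fj Fn h rs j ω' := by
    intro j h1 h2
    unfold Fj
    rw [pts_congr (h := h) (A := (blk rs j).sites N) (ω := ω) (ω' := ω')]
    intro v hv
    exact hag v (fun h3 => h1 (blk_inj hv (sub_sites sub1 h3)))
      (fun h3 => h2 (blk_inj hv (sub_sites sub2 h3)))
  rcases eq_or_ne j₁ j₂ with hjj | hjj
  · subst hjj
    have hS : Sw Fn h rs B ω' - Sw Fn h rs B ω = Fj Fn h rs j₁ ω' - Fj Fn h rs j₁ ω := by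
      unfold Sw
      rw [← Finset.sum_sub_distrib]
      apply Finset.sum_eq_single_of_mem j₁ (mem_univ _)
      intro j _ hne
      rw [hother j hne hne, sub_self]
    have hB : Fj Fn h rs j₁ ω' - Fn (D₁.rect h).bd (pts h (D₁.sites N) ω') -
          Fn (D₂.rect h).bd (pts h (D₂.sites N) ω') ≤
        Fj Fn h rs j₁ ω - Fn (D₁.rect h).bd (pts h (D₁.sites N) ω) -
          Fn (D₂.rect h).bd (pts h (D₂.sites N) ω) + 3 * C * Λ := by
      refine loc_sites hG hh ok1 ok2 ha' s1 s2 hd (sub_sites sub1) (sub_sites sub2)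
        (sub_bd hh sub1) (sub_bd hh sub2) (fun v h1 h2 => (hag v h1 h2).symm)
        (Or.inl ⟨_, corner_mem (rect_ok hh (blk_ok j₁))⟩) ?_
      rw [Nat.even_iff] at hpar ⊢
      omega
    unfold Gw
    linarith
  · rcases hj with hj | ⟨z, z1, z2, z3, z4⟩
    · exact absurd hj hjj
    have hS : Sw Fn h rs B ω' - Sw Fn h rs B ω =
        (Fj Fn h rs j₁ ω' - Fj Fn h rs j₁ ω) + (Fj Fn h rs j₂ ω' - Fj Fn h rs j₂ ω) := by
      unfold Sw
      rw [← Finset.sum_sub_distrib]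
      rw [← Finset.sum_subset (Finset.subset_univ {j₁, j₂})]
      · rw [Finset.sum_pair hjj]
      · intro j _ hne
        simp only [Finset.mem_insert, Finset.mem_singleton, not_or] at hne
        rw [hother j hne.1 hne.2, sub_self]
    have hB1 : Fj Fn h rs j₁ ω' - Fn (D₁.rect h).bd (pts h (D₁.sites N) ω') ≤
        Fj Fn h rs j₁ ω - Fn (D₁.rect h).bd (pts h (D₁.sites N) ω) + 2 * C * Λ := by
      refine loc_one hG hh ok1 z1 s1 (fun x hx y hy => hd x (Or.inl hx) y (Or.inl hy))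
        (sub_sites sub1) (sub_bd hh sub1) z3 ?_
      intro v hv h1
      exact (hag v h1 fun h2 => hjj (blk_inj hv (sub_sites sub2 h2))).symm
    have hB2 : Fj Fn h rs j₂ ω' - Fn (D₂.rect h).bd (pts h (D₂.sites N) ω') ≤
        Fj Fn h rs j₂ ω - Fn (D₂.rect h).bd (pts h (D₂.sites N) ω) + 2 * C * Λ := by
      refine loc_one hG hh ok2 z2 s2 (fun x hx y hy => hd x (Or.inr hx) y (Or.inr hy))
        (sub_sites sub2) (sub_bd hh sub2) z4 ?_
      intro v hv h1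
      exact (hag v (fun h2 => hjj (blk_inj (sub_sites sub1 h2) hv)) h1).symm
    unfold Gw
    linarith

end Pool.Agent.Helper89.Matching
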